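import Pool.Agent.TH954.V.Defs

/-!
# An integer point avoiding finitely many hypersurfaces pulled back by linear forms
-/

set_option autoImplicit false

namespace Pool.Agent.TH929.V954.Avoid

open MvPolynomial Finset Fintype

lemma sz {R : Type*} [CommRing R] [IsDomain R] [DecidableEq R] {m : ℕ}
    {p : MvPolynomial (Fin (m + 1)) R} (hp : p ≠ 0) (S : Finset R) (hS : 0 < S.card) :
    ((piFinset (fun _ : Fin (m + 1) => S)).filter (fun f => eval f p = 0)).card ≤
      p.totalDegree * S.card ^ m := by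
  have h := schwartz_zippel_totalDegree hp S
  have hS' : (0 : ℚ≥0) < S.card := by exact_mod_cast hS
  rw [div_le_div_iff₀ (pow_pos hS' _) hS'] at h
  have h2 : ((((piFinset (fun _ : Fin (m + 1) => S)).filter (fun f => eval f p = 0)).card *
      S.card : ℕ) : ℚ≥0) ≤ ((p.totalDegree * S.card ^ m * S.card : ℕ) : ℚ≥0) := by
    push_cast
    calc _ ≤ _ := h
      _ = _ := by ring
  have h3 := (Nat.cast_le (α := ℚ≥0)).1 h2
  exact Nat.le_of_mul_le_mul_right h3 hS

/-- the zeros in a box -/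
lemma zeros {K : Type*} [Field K] {m : ℕ} (ξ : ℤ → K)
    (hξ : ∀ u w : ℤ, u ≠ 0 → w ≠ 0 → ξ u = ξ w → u = w ∨ u = -w)
    (G : MvPolynomial (Fin (m + 1)) K) (hG : G ≠ 0) :
    ∃ C : ℕ, ∀ L : ℕ, 1 ≤ L →
      ∃ B : Finset (Fin (m + 1) → ℤ), B.card ≤ C * (2 * L + 1) ^ m ∧
        ∀ w : Fin (m + 1) → ℤ, (∀ i, |w i| ≤ L) →
          ((∃ i, w i = 0) ∨ eval (fun i => ξ (w i)) G = 0) → w ∈ B := by
  classical
  refine ⟨(m + 1) + 2 ^ (m + 1) * G.totalDegree, fun L hL => ?_⟩
  set I : Finset ℤ := Icc (-(L : ℤ)) L with hI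
  have hIc : I.card = 2 * L + 1 := by
    rw [hI, Int.card_Icc]; omega
  set P : MvPolynomial (Fin (m + 1)) ℤ := ∏ i, X i with hP
  have hP0 : P ≠ 0 := by
    rw [hP, Finset.prod_ne_zero_iff]
    exact fun i _ => X_ne_zero i
  have hPd : P.totalDegree ≤ m + 1 := by
    rw [hP]
    refine (totalDegree_finsetProd _ _).trans ?_
    simp
  set B1 := (piFinset (fun _ : Fin (m + 1) => I)).filter (fun f => eval f P = 0) with hB1
  have hB1c : B1.card ≤ (m + 1) * (2 * L + 1) ^ m := by
    have := sz hP0 I (by rw [hIc]; omega)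
    rw [hIc] at this
    exact this.trans (Nat.mul_le_mul_right _ hPd)
  set J : Finset ℤ := I.filter (fun w => w ≠ 0) with hJ
  set S : Finset K := J.image ξ with hS
  set B2 := (piFinset (fun _ : Fin (m + 1) => J)).filter (fun w => eval (fun i => ξ (w i)) G = 0)
    with hB2
  have hJc : J.card ≤ 2 * L + 1 := by rw [← hIc]; exact card_filter_le _ _
  have hSc : S.card ≤ 2 * L + 1 := card_image_le.trans hJc
  have hS0 : 0 < S.card := by
    rw [Finset.card_pos]
    refine ⟨ξ 1, mem_image_of_mem _ ?_⟩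
    rw [hJ, mem_filter, hI, mem_Icc]
    refine ⟨⟨?_, ?_⟩, one_ne_zero⟩ <;> omega
  have hB2c : B2.card ≤ 2 ^ (m + 1) * G.totalDegree * (2 * L + 1) ^ m := by
    set Z := (piFinset (fun _ : Fin (m + 1) => S)).filter (fun f => eval f G = 0) with hZ
    have h1 : B2.card ≤ 2 ^ (m + 1) * (B2.image (fun w i => ξ (w i))).card := by
      refine card_le_mul_card_image _ _ ?_
      intro f hf
      have hsub : B2.filter (fun w => (fun i => ξ (w i)) = f) ⊆
          piFinset (fun i => J.filter (fun t => ξ t = f i)) := by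
        intro w hw
        rw [mem_filter, hB2, mem_filter, mem_piFinset] at hw
        rw [mem_piFinset]
        intro i
        rw [mem_filter]
        exact ⟨hw.1.1 i, congrFun hw.2 i⟩
      refine (card_le_card hsub).trans ?_
      rw [card_piFinset]
      refine (Finset.prod_le_pow_card _ _ 2 ?_).trans (by simp)
      intro i _
      -- at most two elements
      rcases (J.filter (fun t => ξ t = f i)).eq_empty_or_nonempty with h | ⟨a, ha⟩
      · rw [h]; simp
      · have : J.filter (fun t => ξ t = f i) ⊆ {a, -a} := by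
          intro b hb
          rw [mem_filter, hJ, mem_filter] at ha hb
          rw [mem_insert, mem_singleton]
          exact hξ b a hb.1.2 ha.1.2 (hb.2.trans ha.2.symm)
        exact (card_le_card this).trans card_le_two
    have h2 : B2.image (fun w i => ξ (w i)) ⊆ Z := by
      intro f hf
      rw [mem_image] at hf
      obtain ⟨w, hw, rfl⟩ := hf
      rw [hB2, mem_filter, mem_piFinset] at hw
      rw [hZ, mem_filter, mem_piFinset]
      exact ⟨fun i => mem_image_of_mem _ (hw.1 i), hw.2⟩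
    calc B2.card ≤ 2 ^ (m + 1) * (B2.image (fun w i => ξ (w i))).card := h1
      _ ≤ 2 ^ (m + 1) * Z.card := Nat.mul_le_mul_left _ (card_le_card h2)
      _ ≤ 2 ^ (m + 1) * (G.totalDegree * S.card ^ m) := Nat.mul_le_mul_left _ (sz hG S hS0)
      _ ≤ 2 ^ (m + 1) * (G.totalDegree * (2 * L + 1) ^ m) := by gcongr
      _ = _ := by ring
  refine ⟨B1 ∪ B2, ?_, ?_⟩
  · refine (card_union_le _ _).trans ?_
    rw [add_mul]
    exact Nat.add_le_add hB1c hB2c
  · intro w hw h
    have hwI : ∀ i, w i ∈ I := fun i => by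
      rw [hI, mem_Icc]; exact abs_le.1 (hw i)
    rw [mem_union]
    by_cases h0 : ∃ i, w i = 0
    · left
      rw [hB1, mem_filter, mem_piFinset]
      refine ⟨hwI, ?_⟩
      obtain ⟨i, hi⟩ := h0
      rw [hP, map_prod]
      exact prod_eq_zero (mem_univ i) (by simp [hi])
    · right
      push Not at h0
      rw [hB2, mem_filter, mem_piFinset]
      refine ⟨fun i => ?_, h.resolve_left fun ⟨i, hi⟩ => h0 i hi⟩
      rw [hJ, mem_filter]
      exact ⟨hwI i, h0 i⟩

lemma gram {m k : ℕ} (U : Matrix (Fin m) (Fin k) ℤ) (h : LinearIndependent ℤ (fun i => U i)) :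
    (U * U.transpose).det ≠ 0 := by
  intro h0
  obtain ⟨v, hv, hv0⟩ := Matrix.exists_vecMul_eq_zero_iff.2 h0
  have h1 : (Matrix.vecMul v U) ⬝ᵥ (Matrix.vecMul v U) = 0 := by
    have : (Matrix.vecMul v (U * U.transpose)) ⬝ᵥ v = 0 := by rw [hv0, zero_dotProduct]
    rw [← Matrix.vecMul_vecMul, Matrix.vecMul_transpose, dotProduct_comm,
      Matrix.dotProduct_mulVec] at this
    exact this
  have h2 : Matrix.vecMul v U = 0 := dotProduct_self_eq_zero.1 h1
  apply hv
  rw [Fintype.linearIndependent_iff] at h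
  funext i
  refine h v ?_ i
  rw [← h2]
  funext j
  simp [Matrix.vecMul, dotProduct, Finset.sum_apply]

/-- a parameter matrix which makes all products nonsingular -/
lemma exists_T {ι : Type*} [Finite ι] {m k : ℕ} (U : ι → Matrix (Fin m) (Fin k) ℤ)
    (h : ∀ s, LinearIndependent ℤ (fun i => U s i)) :
    ∃ T : Matrix (Fin k) (Fin m) ℤ, ∀ s, (U s * T).det ≠ 0 := by
  classical
  cases nonempty_fintype ι
  set Y : Matrix (Fin k) (Fin m) (MvPolynomial (Fin k × Fin m) ℤ) :=
    Matrix.of fun j i => X (j, i) with hY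
  set V : ι → Matrix (Fin m) (Fin k) (MvPolynomial (Fin k × Fin m) ℤ) := fun s =>
    (U s).map (C : ℤ → MvPolynomial (Fin k × Fin m) ℤ) with hV
  set D : ι → MvPolynomial (Fin k × Fin m) ℤ := fun s =>
    Matrix.det (V s * Y : Matrix (Fin m) (Fin m) (MvPolynomial (Fin k × Fin m) ℤ)) with hD
  have hev : ∀ (s : ι) (x : Fin k × Fin m → ℤ), eval x (D s) =
      (U s * Matrix.of fun j i => x (j, i)).det := by
    intro s x
    rw [hD]
    simp only
    rw [RingHom.map_det]
    congr 1
    ext i j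
    simp [Matrix.mul_apply, map_sum, hY, hV]
  have hD0 : ∀ s, D s ≠ 0 := by
    intro s h0
    have h1 := hev s (fun p => U s p.2 p.1)
    rw [h0, map_zero] at h1
    exact gram (U s) (h s) h1.symm
  have hP : ∏ s, D s ≠ 0 := Finset.prod_ne_zero_iff.2 fun s _ => hD0 s
  obtain ⟨x, hx⟩ : ∃ x, eval x (∏ s, D s) ≠ 0 := by
    by_contra hcon
    push Not at hcon
    exact hP (MvPolynomial.funext fun x => by rw [hcon x, map_zero])
  refine ⟨Matrix.of fun j i => x (j, i), fun s => ?_⟩
  rw [map_prod, Finset.prod_ne_zero_iff] at hx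
  rw [← hev]
  exact hx s (mem_univ s)

theorem avoid (K : Type) [Field K] (ι : Type) [Finite ι] (k m : ℕ) (ξ : ℤ → K)
    (hξ : ∀ u w : ℤ, u ≠ 0 → w ≠ 0 → ξ u = ξ w → u = w ∨ u = -w)
    (u : ι → Fin m → Fin k → ℤ) (hu : ∀ s, LinearIndependent ℤ (u s))
    (G : ι → MvPolynomial (Fin m) K) (hG : ∀ s, G s ≠ 0) :
    ∃ n : Fin k → ℤ, ∀ s, (∀ i, ∑ j, u s i j * n j ≠ 0) ∧
      eval (fun i => ξ (∑ j, u s i j * n j)) (G s) ≠ 0 := by
  classical
  cases nonempty_fintype ι
  rcases m with _ | m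
  · refine ⟨0, fun s => ⟨fun i => i.elim0, ?_⟩⟩
    obtain ⟨c, hc⟩ : ∃ c, G s = C c := ⟨_, eq_C_of_isEmpty (G s)⟩
    rw [hc, eval_C]
    rintro rfl
    exact hG s (by rw [hc, C_0])
  obtain ⟨T, hT⟩ := exists_T (fun s => (Matrix.of (u s))) hu
  choose Cs hCs using fun s => zeros ξ hξ (G s) (hG s)
  set W : ι → Matrix (Fin (m + 1)) (Fin (m + 1)) ℤ := fun s => Matrix.of (u s) * T with hW
  set c : ℕ := (∑ s, ∑ i, ∑ j, (W s i j).natAbs) + 1 with hc
  set H : ℕ := (∑ s, Cs s * c ^ m) + 1 with hH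
  have hcH : 1 ≤ c * H := Nat.mul_pos (by omega) (by omega)
  choose B hBc hB using fun s => hCs s (c * H) hcH
  set X : Finset (Fin (m + 1) → ℤ) := piFinset (fun _ : Fin (m + 1) => Icc (-(H : ℤ)) H) with hX
  have hXc : X.card = (2 * H + 1) ^ (m + 1) := by
    rw [hX, card_piFinset]
    simp only [Int.card_Icc, prod_const, Finset.card_univ, Fintype.card_fin]
    congr 1
    omega
  -- bound for the values
  have hbd : ∀ s, ∀ x ∈ X, ∀ i, |(W s).mulVec x i| ≤ ((c * H : ℕ) : ℤ) := by
    intro s x hx i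
    rw [hX, mem_piFinset] at hx
    have h1 : ∀ j, |x j| ≤ H := fun j => abs_le.2 (mem_Icc.1 (hx j))
    have h2 : ∑ j, |W s i j| ≤ (c : ℤ) := by
      have h3 : ∑ j, (W s i j).natAbs ≤ c := by
        have h4 : ∑ j, (W s i j).natAbs ≤ ∑ i, ∑ j, (W s i j).natAbs :=
          Finset.single_le_sum (f := fun i => ∑ j, (W s i j).natAbs) (fun _ _ => Nat.zero_le _)
            (mem_univ i)
        have h5 : ∑ i, ∑ j, (W s i j).natAbs ≤ ∑ s, ∑ i, ∑ j, (W s i j).natAbs :=
          Finset.single_le_sum (f := fun s => ∑ i, ∑ j, (W s i j).natAbs)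
            (fun _ _ => Nat.zero_le _) (mem_univ s)
        omega
      calc ∑ j, |W s i j| = ((∑ j, (W s i j).natAbs : ℕ) : ℤ) := by
            push_cast; rfl
        _ ≤ c := by exact_mod_cast h3
    calc |(W s).mulVec x i| = |∑ j, W s i j * x j| := rfl
      _ ≤ ∑ j, |W s i j * x j| := Finset.abs_sum_le_sum_abs _ _
      _ ≤ ∑ j, |W s i j| * H := by
          refine Finset.sum_le_sum fun j _ => ?_
          rw [abs_mul]
          exact mul_le_mul_of_nonneg_left (h1 j) (abs_nonneg _)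
      _ = (∑ j, |W s i j|) * H := by rw [Finset.sum_mul]
      _ ≤ c * H := mul_le_mul_of_nonneg_right h2 (by positivity)
      _ = _ := by push_cast; ring
  -- a good point
  obtain ⟨x, hxX, hx⟩ : ∃ x ∈ X, ∀ s, (W s).mulVec x ∉ B s := by
    by_contra hcon
    push Not at hcon
    have hsub : X ⊆ univ.biUnion fun s => X.filter (fun x => (W s).mulVec x ∈ B s) := by
      intro x hx
      obtain ⟨s, hs⟩ := hcon x hx
      rw [mem_biUnion]
      exact ⟨s, mem_univ s, mem_filter.2 ⟨hx, hs⟩⟩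
    have h1 : X.card ≤ ∑ s, (X.filter (fun x => (W s).mulVec x ∈ B s)).card :=
      (card_le_card hsub).trans card_biUnion_le
    have h2 : ∀ s, (X.filter (fun x => (W s).mulVec x ∈ B s)).card ≤ Cs s * c ^ m * (2 * H + 1) ^ m := by
      intro s
      have h3 : (X.filter (fun x => (W s).mulVec x ∈ B s)).card ≤ (B s).card := by
        refine Finset.card_le_card_of_injOn (fun x => (W s).mulVec x) ?_ ?_
        · intro x hx
          exact (mem_filter.1 hx).2
        · intro x _ y _ hxy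
          have h4 : (W s).mulVec (x - y) = 0 := by
            rw [Matrix.mulVec_sub]; exact sub_eq_zero.2 hxy
          exact sub_eq_zero.1 (Matrix.eq_zero_of_mulVec_eq_zero (hT s) h4)
      calc _ ≤ (B s).card := h3
        _ ≤ Cs s * (2 * (c * H) + 1) ^ m := hBc s
        _ ≤ Cs s * (c * (2 * H + 1)) ^ m := by
            gcongr
            have : 1 ≤ c := by omega
            nlinarith
        _ = _ := by rw [mul_pow]; ring
    have h3 : (2 * H + 1) ^ (m + 1) ≤ (∑ s, Cs s * c ^ m) * (2 * H + 1) ^ m := by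
      rw [← hXc, Finset.sum_mul]
      exact h1.trans (Finset.sum_le_sum fun s _ => h2 s)
    rw [pow_succ'] at h3
    have h4 := Nat.le_of_mul_le_mul_right h3 (by positivity)
    omega
  refine ⟨T.mulVec x, fun s => ?_⟩
  have e : ∀ i, ∑ j, u s i j * T.mulVec x j = (W s).mulVec x i := by
    intro i
    rw [hW]
    simp only
    rw [← Matrix.mulVec_mulVec]
    rfl
  simp only [e]
  exact ⟨fun i hi => (hx s) (hB s _ (hbd s x hxX) (Or.inl ⟨i, hi⟩)),
    fun h0 => (hx s) (hB s _ (hbd s x hxX) (Or.inr h0))⟩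

theorem result : Pool.Agent.TH954.V.T_avoid :=
  fun K _ ι _ k m ξ hξ u hu G hG => avoid K ι k m ξ hξ u hu G hG

end Pool.Agent.TH929.V954.Avoid
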